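import Pool.Agent.Helper20.HP.Data2

/-!
# HOPF-F9: assembly for `S² × S²`
-/

open Filter Metric Module Set
open scoped Topology ContDiff RealInnerProductSpace Manifold Quaternion

namespace Pool.Agent.Helper52.HP
open Pool.Agent.Helper20.PC Pool.Agent.Helper20.HP

theorem f9_hopf (q : ℍ[ℝ]) : (q * qI * star q).imI = q.re ^ 2 + q.imI ^ 2 - q.imJ ^ 2 - q.imK ^ 2 ∧
    (q * qI * star q).imJ = 2 * (q.imI * q.imJ + q.re * q.imK) ∧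
    (q * qI * star q).imK = 2 * (q.imI * q.imK - q.re * q.imJ) := by
  have e0 : qI.re = 0 := rfl
  have e1 : qI.imI = 1 := rfl
  have e2 : qI.imJ = 0 := rfl
  have e3 : qI.imK = 0 := rfl
  refine ⟨?_, ?_, ?_⟩
  · simp [e0, e1, e2, e3]
    ring
  · simp [e0, e1, e2, e3]
    ring
  · simp [e0, e1, e2, e3]
    ring

theorem f9_normSq (q : ℍ[ℝ]) : ‖q‖ ^ 2 = q.re ^ 2 + q.imI ^ 2 + q.imJ ^ 2 + q.imK ^ 2 := by
  rw [pow_two, ← Quaternion.normSq_eq_norm_mul_self, Quaternion.normSq_def']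

/-- the Hopf map is onto. -/
theorem f9_lift (y : E3) (hy : ‖y‖ = 1) : ∃ q : ℍ[ℝ], ‖q‖ = 1 ∧ vecL (q * qI * star q) = y := by
  have h1 : y 0 ^ 2 + y 1 ^ 2 + y 2 ^ 2 = 1 := by
    have := EuclideanSpace.norm_sq_eq y
    rw [hy, Fin.sum_univ_three] at this
    simp only [Real.norm_eq_abs, sq_abs] at this
    linarith
  have hn : ∀ q : ℍ[ℝ], q.re ^ 2 + q.imI ^ 2 + q.imJ ^ 2 + q.imK ^ 2 = 1 → ‖q‖ = 1 := by
    intro q hq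
    have h2 := f9_normSq q
    rw [hq] at h2
    nlinarith [norm_nonneg q]
  by_cases ha : y 0 = -1
  · have hb : y 1 = 0 := by nlinarith [sq_nonneg (y 1), sq_nonneg (y 2)]
    have hc : y 2 = 0 := by nlinarith [sq_nonneg (y 1), sq_nonneg (y 2)]
    refine ⟨⟨0, 0, 1, 0⟩, hn _ (by simp), ?_⟩
    obtain ⟨e1, e2, e3⟩ := f9_hopf ⟨0, 0, 1, 0⟩
    rw [vecL_apply, e1, e2, e3]
    ext i
    fin_cases i <;> simp [ha, hb, hc]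
  · have ha' : 0 < 1 + y 0 := by
      have : -1 ≤ y 0 := by nlinarith [sq_nonneg (y 1), sq_nonneg (y 2)]
      rcases this.lt_or_eq with h | h
      · linarith
      · exact absurd h.symm ha
    set s : ℝ := √((1 + y 0) / 2) with hs
    have hs2 : s ^ 2 = (1 + y 0) / 2 := Real.sq_sqrt (by linarith)
    have hs0 : 0 < s := Real.sqrt_pos.mpr (by linarith)
    have hs4 : (y 1 / (2 * s)) ^ 2 + (y 2 / (2 * s)) ^ 2 = 1 - s ^ 2 := by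
      have h4 : y 1 ^ 2 + y 2 ^ 2 = 4 * s ^ 2 * (1 - s ^ 2) := by
        rw [hs2]; nlinarith
      field_simp
      linarith
    have h5 : s * (y 1 / (2 * s)) = y 1 / 2 := by field_simp
    have h6 : s * (y 2 / (2 * s)) = y 2 / 2 := by field_simp
    refine ⟨⟨s, 0, -(y 2 / (2 * s)), y 1 / (2 * s)⟩, hn _ ?_, ?_⟩
    · simp only
      nlinarith
    · obtain ⟨e1, e2, e3⟩ := f9_hopf ⟨s, 0, -(y 2 / (2 * s)), y 1 / (2 * s)⟩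
      rw [vecL_apply, e1, e2, e3]
      ext i
      fin_cases i
      · simp only [Fin.zero_eta, Matrix.cons_val_zero]
        nlinarith
      · simp only [Fin.mk_one, Matrix.cons_val_one, Matrix.cons_val_zero]
        linarith
      · simp only [Fin.reduceFinMk, Matrix.cons_val]
        linarith

theorem f9_norm_vec (q : ℍ[ℝ]) : ‖vecL (q * qI * star q)‖ = ‖q‖ ^ 2 := by
  have h1 : ‖vecL (q * qI * star q)‖ ^ 2 = (‖q‖ ^ 2) ^ 2 := by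
    obtain ⟨e1, e2, e3⟩ := f9_hopf q
    rw [EuclideanSpace.norm_sq_eq, Fin.sum_univ_three, vecL_apply, e1, e2, e3, f9_normSq]
    simp only [Real.norm_eq_abs, sq_abs, Matrix.cons_val_zero, Matrix.cons_val_one,
      Matrix.cons_val]
    ring
  nlinarith [norm_nonneg (vecL (q * qI * star q)), norm_nonneg q,
    pow_nonneg (norm_nonneg q) 2, sq_nonneg (‖vecL (q * qI * star q)‖ - ‖q‖ ^ 2)]

theorem f9_norm_prj (z : E3 × ℍ[ℝ]) : ‖(prj z).2‖ = ‖z.2‖ := by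
  rw [prj, norm_smul, f9_norm_vec, norm_inv, norm_norm]
  by_cases h : ‖z.2‖ = 0
  · simp [h]
  · field_simp

theorem f9_fst {z : E3 × ℍ[ℝ]} (h : DifferentiableAt ℝ prj z) (a : E3 × ℍ[ℝ]) :
    (fderiv ℝ prj z a).1 = a.1 := by
  have h1 : HasFDerivAt (fun w => (prj w).1) ((ContinuousLinearMap.fst ℝ E3 E3).comp (fderiv ℝ prj z)) z :=
    (ContinuousLinearMap.fst ℝ E3 E3).hasFDerivAt.comp z h.hasFDerivAt
  have h2 : HasFDerivAt (fun w : E3 × ℍ[ℝ] => (prj w).1) (ContinuousLinearMap.fst ℝ E3 ℍ[ℝ]) z :=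
    (ContinuousLinearMap.fst ℝ E3 ℍ[ℝ]).hasFDerivAt
  have h3 := h1.unique h2
  exact DFunLike.congr_fun h3 a

theorem f9_snd {z : E3 × ℍ[ℝ]} (h : DifferentiableAt ℝ prj z) (a : E3 × ℍ[ℝ]) :
    ⟪(prj z).2, (fderiv ℝ prj z a).2⟫ = ⟪z.2, a.2⟫ := by
  have h1 : HasFDerivAt (fun w => (prj w).2) ((ContinuousLinearMap.snd ℝ E3 E3).comp (fderiv ℝ prj z)) z :=
    (ContinuousLinearMap.snd ℝ E3 E3).hasFDerivAt.comp z h.hasFDerivAt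
  have h2 : HasFDerivAt (fun w : E3 × ℍ[ℝ] => w.2) (ContinuousLinearMap.snd ℝ E3 ℍ[ℝ]) z :=
    (ContinuousLinearMap.snd ℝ E3 ℍ[ℝ]).hasFDerivAt
  have h3 := h1.norm_sq
  have h4 := h2.norm_sq
  have h5 : (fun w => ‖(prj w).2‖ ^ 2) = (fun w : E3 × ℍ[ℝ] => ‖w.2‖ ^ 2) := by
    funext w; rw [f9_norm_prj]
  rw [h5] at h3
  have h6 := DFunLike.congr_fun (h3.unique h4) a
  simp only [nsmul_eq_mul, Nat.cast_ofNat, _root_.smul_apply, ContinuousLinearMap.comp_apply,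
    innerSL_apply_apply, ContinuousLinearMap.coe_snd'] at h6
  linarith

theorem f9_re {q b : ℍ[ℝ]} (hq : ‖q‖ = 1) (h : ⟪q, b⟫ = 0) : (b * q⁻¹).re = 0 := by
  have h1 : q⁻¹ = star q := by
    rw [Quaternion.inv_def]
    rw [Quaternion.normSq_eq_norm_mul_self, hq]
    simp
  rw [h1]
  rw [Quaternion.inner_def] at h
  have h2 : (b * star q).re = (star (q * star b)).re := by simp
  rw [h2, Quaternion.re_star, h]

/-- Cauchy-Schwarz. -/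
theorem f9_gram {F : Type*} [NormedAddCommGroup F] [NormedSpace ℝ F] {B : F →L[ℝ] F →L[ℝ] ℝ}
    (hs : ∀ u v, B u v = B v u) (hp : ∀ u, u ≠ 0 → 0 < B u u) {u v : F}
    (h : LinearIndependent ℝ ![u, v]) : 0 < B u u * B v v - B u v ^ 2 := by
  rw [LinearIndependent.pair_iff] at h
  have hu : u ≠ 0 := by
    rintro rfl
    have := (h 1 0 (by simp)).1
    norm_num at this
  have h1 := hp u hu
  have hw : (- B u v) • u + (B u u) • v ≠ 0 := by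
    intro hw
    exact h1.ne' (h _ _ hw).2
  have h2 := hp _ hw
  have h3 : B ((- B u v) • u + (B u u) • v) ((- B u v) • u + (B u u) • v)
      = B u u * (B u u * B v v - B u v ^ 2) := by
    simp only [map_add, map_smul, _root_.add_apply, _root_.smul_apply, smul_eq_mul]
    rw [hs v u]
    ring
  rw [h3] at h2
  exact (mul_pos_iff_of_pos_left h1).mp h2

/-- **Assembly for `S² × S²`**; the hypotheses are the pieces `main3`, `num_submersion`,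
`metAt_KK`, `num_right`, `submersion`, `metAt_ext_g2`, `g2_metric`. -/
theorem final2_of
    (Hmain : ∃ κ ε T δ : ℝ, 0 < κ ∧ κ ≤ 1/10 ∧ 0 < δ ∧
      (∀ y : E3, ‖y‖ = 1 → ∀ a, a ≠ 0 → 0 < Mf κ ε T δ y a a) ∧
      ∀ x : E3, ‖x‖ = 1 → ∀ u v : E3 × ℍ[ℝ], ⟪x, u.1⟫ = 0 → u.2.re = 0 → ⟪x, v.1⟫ = 0 → v.2.re = 0 →
        LinearIndependent ℝ ![u, v] → 0 < num (KK (hE κ) (NE κ ε T δ) (AE κ ε)) (x, 1) u v)
    (Hsub : ∀ (G : E3 × ℍ[ℝ] → (E3 × ℍ[ℝ]) →L[ℝ] (E3 × ℍ[ℝ]) →L[ℝ] ℝ)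
      (G' : E3 × E3 → (E3 × E3) →L[ℝ] (E3 × E3) →L[ℝ] ℝ) (φ : E3 × ℍ[ℝ] → E3 × E3) (z : E3 × ℍ[ℝ])
      (β : E3 × ℍ[ℝ] → E3 × ℍ[ℝ] →L[ℝ] ℝ), ContDiffAt ℝ 3 φ z → ContDiffAt ℝ 2 β z →
      MetAt G' (φ z) → MetAt G z → (∀ (a' : E3 × E3) (s : ℝ), ∃ a, fderiv ℝ φ z a = a' ∧ β z a = s) →
      (∀ᶠ w in 𝓝 z, ∀ a b, G w a b
        = G' (φ w) (fderiv ℝ φ w a) (fderiv ℝ φ w b) + β w a * β w b) →
      ∀ u v, β z u = 0 → β z v = 0 → num G z u v = num G' (φ z) (fderiv ℝ φ z u) (fderiv ℝ φ z v)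
        - (3/4) * (fderiv ℝ β z u v - fderiv ℝ β z v u) ^ 2)
    (HKK : ∀ κ ε T δ : ℝ, |κ| ≤ 1/10 → (∀ y : E3, ‖y‖ = 1 → ∀ a, a ≠ 0 → 0 < Mf κ ε T δ y a a) →
      ∀ z : E3 × ℍ[ℝ], z.1 ≠ 0 → z.2 ≠ 0 → MetAt (KK (hE κ) (NE κ ε T δ) (AE κ ε)) z)
    (Hright : ∀ κ ε T δ : ℝ, |κ| ≤ 1/10 → (∀ y : E3, ‖y‖ = 1 → ∀ a, a ≠ 0 → 0 < Mf κ ε T δ y a a) →
      ∀ x : E3, x ≠ 0 → ∀ q : ℍ[ℝ], q ≠ 0 → ∀ u v : E3 × ℍ[ℝ],
      num (KK (hE κ) (NE κ ε T δ) (AE κ ε)) (x, q) u v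
        = num (KK (hE κ) (NE κ ε T δ) (AE κ ε)) (x, 1) (u.1, u.2 * q⁻¹) (v.1, v.2 * q⁻¹))
    (Hsubm : ∀ κ ε T δ : ℝ, |κ| ≤ 1/10 → (∀ y : E3, ‖y‖ = 1 → ∀ a, a ≠ 0 → 0 < Mf κ ε T δ y a a) →
      ∀ (p : sphere (0 : E3) 1 × sphere (0 : E3) 1) (z : E3 × ℍ[ℝ]), z.1 ≠ 0 → z.2 ≠ 0 →
      ContDiffAt ℝ 3 prj z ∧ ContDiffAt ℝ 2 (bet κ ε T δ) z ∧ (prj z).1 ≠ 0 ∧ (prj z).2 ≠ 0 ∧
      (∀ (a' : E3 × E3) (s : ℝ), ∃ a, fderiv ℝ prj z a = a' ∧ bet κ ε T δ z a = s) ∧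
      (∀ a b, KK (hE κ) (NE κ ε T δ) (AE κ ε) z a b
        = extM p (g2 κ ε T δ) (prj z) (fderiv ℝ prj z a) (fderiv ℝ prj z b)
          + bet κ ε T δ z a * bet κ ε T δ z b))
    (Hext : ∀ κ ε T δ : ℝ, |κ| ≤ 1/10 → (∀ y : E3, ‖y‖ = 1 → ∀ a, a ≠ 0 → 0 < Mf κ ε T δ y a a) →
      ∀ (p : sphere (0 : E3) 1 × sphere (0 : E3) 1) (z : E3 × E3), z.1 ≠ 0 → z.2 ≠ 0 →
      MetAt (extM p (g2 κ ε T δ)) z)
    (Hg2 : ∀ κ ε T δ : ℝ, |κ| ≤ 1/10 → (∀ y : E3, ‖y‖ = 1 → ∀ a, a ≠ 0 → 0 < Mf κ ε T δ y a a) →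
      ContMDiff ((𝓡 2).prod (𝓡 2)) 𝓘(ℝ, (E3 × E3) →L[ℝ] (E3 × E3) →L[ℝ] ℝ) ∞ (g2 κ ε T δ) ∧
      (∀ p u v, g2 κ ε T δ p u v = g2 κ ε T δ p v u) ∧
      (∀ (p : sphere (0 : E3) 1 × sphere (0 : E3) 1) (u : E3 × E3), ⟪(p.1 : E3), u.1⟫ = 0 →
        ⟪(p.2 : E3), u.2⟫ = 0 → u ≠ 0 → 0 < g2 κ ε T δ p u u)) :
    ∃ g : sphere (0 : E3) 1 × sphere (0 : E3) 1 → (E3 × E3) →L[ℝ] (E3 × E3) →L[ℝ] ℝ,
      ContMDiff ((𝓡 2).prod (𝓡 2)) 𝓘(ℝ, (E3 × E3) →L[ℝ] (E3 × E3) →L[ℝ] ℝ) ∞ g ∧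
      (∀ p u v, g p u v = g p v u) ∧
      (∀ (p : sphere (0 : E3) 1 × sphere (0 : E3) 1) (u : E3 × E3), ⟪(p.1 : E3), u.1⟫ = 0 →
        ⟪(p.2 : E3), u.2⟫ = 0 → u ≠ 0 → 0 < g p u u) ∧
      ∀ (p : sphere (0 : E3) 1 × sphere (0 : E3) 1) (u v : E3 × E3),
        ⟪(p.1 : E3), u.1⟫ = 0 → ⟪(p.2 : E3), u.2⟫ = 0 → ⟪(p.1 : E3), v.1⟫ = 0 → ⟪(p.2 : E3), v.2⟫ = 0 →
        LinearIndependent ℝ ![u, v] → 0 < sectional g p u v := by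
  obtain ⟨κ, ε, T, δ, hκ0, hκ1, -, hM, hmain⟩ := Hmain
  have hκ : |κ| ≤ 1/10 := by rwa [abs_of_pos hκ0]
  obtain ⟨hg1, hg2, hg3⟩ := Hg2 κ ε T δ hκ hM
  refine ⟨g2 κ ε T δ, hg1, hg2, hg3, ?_⟩
  intro p u v hu1 hu2 hv1 hv2 huv
  have hx : ‖(p.1 : E3)‖ = 1 := by simp
  have hy : ‖(p.2 : E3)‖ = 1 := by simp
  have hx0 : (p.1 : E3) ≠ 0 := by rintro h; rw [h] at hx; simp at hx
  have hy0 : (p.2 : E3) ≠ 0 := by rintro h; rw [h] at hy; simp at hy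
  obtain ⟨q, hq, hqy⟩ := f9_lift (p.2 : E3) hy
  have hq0 : q ≠ 0 := by rintro rfl; simp at hq
  have hz : prj ((p.1 : E3), q) = ((p.1 : E3), (p.2 : E3)) := by
    simp [prj, hq, hqy]
  have hmet : MetAt (extM p (g2 κ ε T δ)) ((p.1 : E3), (p.2 : E3)) :=
    Hext κ ε T δ hκ hM p _ hx0 hy0
  obtain ⟨s1, s2, -, -, s5, -⟩ := Hsubm κ ε T δ hκ hM p ((p.1 : E3), q) hx0 hq0
  have hev : ∀ᶠ w in 𝓝 ((p.1 : E3), q), ∀ a b, KK (hE κ) (NE κ ε T δ) (AE κ ε) w a b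
      = extM p (g2 κ ε T δ) (prj w) (fderiv ℝ prj w a) (fderiv ℝ prj w b)
        + bet κ ε T δ w a * bet κ ε T δ w b := by
    have h1 : ∀ᶠ w : E3 × ℍ[ℝ] in 𝓝 ((p.1 : E3), q), w.1 ≠ 0 :=
      continuous_fst.continuousAt.eventually_ne hx0
    have h2 : ∀ᶠ w : E3 × ℍ[ℝ] in 𝓝 ((p.1 : E3), q), w.2 ≠ 0 :=
      continuous_snd.continuousAt.eventually_ne hq0
    filter_upwards [h1, h2] with w hw1 hw2
    exact (Hsubm κ ε T δ hκ hM p w hw1 hw2).2.2.2.2.2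
  obtain ⟨a, ha1, ha2⟩ := s5 u 0
  obtain ⟨b, hb1, hb2⟩ := s5 v 0
  have hdiff : DifferentiableAt ℝ prj ((p.1 : E3), q) := s1.differentiableAt (by norm_num)
  have hnum := Hsub (KK (hE κ) (NE κ ε T δ) (AE κ ε)) (extM p (g2 κ ε T δ)) prj ((p.1 : E3), q)
    (bet κ ε T δ) s1 s2 (by rw [hz]; exact hmet) (HKK κ ε T δ hκ hM _ hx0 hq0) s5 hev a b ha2 hb2
  rw [hz, ha1, hb1] at hnum
  have hpos : 0 < num (KK (hE κ) (NE κ ε T δ) (AE κ ε)) ((p.1 : E3), q) a b := by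
    rw [Hright κ ε T δ hκ hM _ hx0 q hq0]
    have key : ∀ (a : E3 × ℍ[ℝ]) (u : E3 × E3), fderiv ℝ prj ((p.1 : E3), q) a = u →
        ⟪(p.1 : E3), u.1⟫ = 0 → ⟪(p.2 : E3), u.2⟫ = 0 →
        ⟪(p.1 : E3), a.1⟫ = 0 ∧ (a.2 * q⁻¹).re = 0 := by
      rintro a u rfl h1 h2
      have h3 := f9_fst hdiff a
      have h4 := f9_snd hdiff a
      rw [hz] at h4
      refine ⟨by rw [← h3]; exact h1, f9_re hq ?_⟩
      rw [← h4]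
      exact h2
    obtain ⟨ka1, ka2⟩ := key a u ha1 hu1 hu2
    obtain ⟨kb1, kb2⟩ := key b v hb1 hv1 hv2
    refine hmain _ hx _ _ ka1 ka2 kb1 kb2 ?_
    rw [LinearIndependent.pair_iff] at huv ⊢
    intro s t hst
    apply huv s t
    have e1 : s • a.1 + t • b.1 = 0 := congrArg Prod.fst hst
    have e2 : s • (a.2 * q⁻¹) + t • (b.2 * q⁻¹) = 0 := congrArg Prod.snd hst
    have e3 : s • a.2 + t • b.2 = 0 := by
      have h : (s • a.2 + t • b.2) * q⁻¹ = 0 := by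
        rw [add_mul, smul_mul_assoc, smul_mul_assoc, e2]
      rcases mul_eq_zero.mp h with h | h
      · exact h
      · exact absurd h (inv_ne_zero hq0)
    have e4 : s • a + t • b = 0 := Prod.ext e1 e3
    rw [← ha1, ← hb1, ← map_smul, ← map_smul, ← map_add, e4, map_zero]
  rw [hnum] at hpos
  have hnum2 : 0 < num (extM p (g2 κ ε T δ)) ((p.1 : E3), (p.2 : E3)) u v := by
    nlinarith [sq_nonneg (fderiv ℝ (bet κ ε T δ) ((p.1 : E3), q) a b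
      - fderiv ℝ (bet κ ε T δ) ((p.1 : E3), q) b a)]
  rw [sectional, secCurv, G_Riem hmet]
  exact div_pos hnum2 (f9_gram hmet.symm.self_of_nhds hmet.pos.self_of_nhds huv)

end Pool.Agent.Helper52.HP
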